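import Mathlib

/-!
# Backward shifts on nuclear Köthe coechelon spaces

If the Köthe coechelon space `k_p(V)` is nuclear (it suffices that for every `m` there is `n` with
`v^(n)_j / v^(m)_j → 0`) and the backward shift is topologically ergodic on it, then the backward
shift is sequentially hypercyclic.
-/

set_option autoImplicit false

open Filter Topology Set
open scoped ENNReal

namespace Pool.Agent.Results.MP_b30f08_an.ErgodicImpliesHypercyclic

section Defs

variable {𝕜 : Type*} [RCLike 𝕜]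

/-- The weighted sequence `(w_j x_j)`. -/
def wt (w : ℕ → ℝ) (x : ℕ → 𝕜) : ℕ → 𝕜 := fun j => (w j : 𝕜) * x j

/-- The space `ℓ_p(w)` for `1 ≤ p < ∞` and the space `c_0(w)` for `p = ∞`. -/
def step (𝕜 : Type*) [RCLike 𝕜] (p : ℝ≥0∞) (w : ℕ → ℝ) : Submodule 𝕜 (ℕ → 𝕜) where
  carrier := {x | Memℓp (wt w x) p ∧ (p = ∞ → Tendsto (wt w x) atTop (𝓝 0))}
  add_mem' := by
    rintro x y ⟨hx, hx'⟩ ⟨hy, hy'⟩
    have e : wt w (x + y) = wt w x + wt w y := by
      funext j; simp [wt, mul_add]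
    refine ⟨by rw [e]; exact hx.add hy, fun h => ?_⟩
    rw [e]
    have h3 : Tendsto (fun j => wt w x j + wt w y j) atTop (𝓝 (0 + 0)) := (hx' h).add (hy' h)
    rw [add_zero] at h3
    exact h3
  zero_mem' := by
    have e : wt w (0 : ℕ → 𝕜) = 0 := by
      funext j; simp [wt]
    refine ⟨by rw [e]; exact zero_memℓp, fun _ => ?_⟩
    rw [e]; exact tendsto_const_nhds
  smul_mem' := by
    rintro c x ⟨hx, hx'⟩
    have e : wt w (c • x) = c • wt w x := by
      funext j; simp [wt]; ring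
    refine ⟨by rw [e]; exact hx.const_smul c, fun h => ?_⟩
    rw [e]
    have h3 : Tendsto (fun j => c * wt w x j) atTop (𝓝 (c * 0)) := (hx' h).const_mul c
    rw [mul_zero] at h3
    exact h3

/-- The norm of `ℓ_p(w)` and of `c_0(w)`. -/
noncomputable def stepNorm (p : ℝ≥0∞) (w : ℕ → ℝ) (x : ℕ → 𝕜) : ℝ :=
  if p = ∞ then ⨆ j, ‖wt w x j‖ else (∑' j, ‖wt w x j‖ ^ p.toReal) ^ (1 / p.toReal)

/-- A decreasing sequence of strictly positive weights. -/
structure IsWeights (v : ℕ → ℕ → ℝ) : Prop where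
  pos : ∀ m j, 0 < v m j
  anti : ∀ m j, v (m + 1) j ≤ v m j

/-- The Köthe coechelon space `k_p(V)` (`k_0(V)` for `p = ∞`): the sum, that is the union, of the
increasing sequence of the spaces `ℓ_p(v^(m))`. -/
def K (𝕜 : Type*) [RCLike 𝕜] (p : ℝ≥0∞) (v : ℕ → ℕ → ℝ) : Submodule 𝕜 (ℕ → 𝕜) :=
  ⨆ m, step 𝕜 p (v m)

/-- The topology of the locally convex inductive limit `k_p(V)`: the finest locally convex vector
space topology for which all the inclusions `ℓ_p(v^(m)) → k_p(V)` are continuous. -/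
@[instance_reducible] def indTop (𝕜 : Type*) [RCLike 𝕜] (p : ℝ≥0∞) (v : ℕ → ℕ → ℝ) : TopologicalSpace (K 𝕜 p v) :=
  sInf {τ | @IsTopologicalAddGroup _ τ _ ∧ @ContinuousSMul 𝕜 _ _ _ τ ∧
    @LocallyConvexSpace ℝ _ _ _ _ _ τ ∧
    ∀ (m : ℕ) (x : K 𝕜 p v), (x : ℕ → 𝕜) ∈ step 𝕜 p (v m) → ∀ U : Set (K 𝕜 p v), IsOpen[τ] U →
      x ∈ U → ∃ δ > 0, ∀ y : K 𝕜 p v, (y : ℕ → 𝕜) ∈ step 𝕜 p (v m) →
        stepNorm p (v m) (fun j => (y : ℕ → 𝕜) j - (x : ℕ → 𝕜) j) < δ → y ∈ U}

/-- The condition for the continuity of the backward shift. -/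
def ShiftCond (v : ℕ → ℕ → ℝ) : Prop := ∀ m, ∃ n, m ≤ n ∧ ∃ C : ℝ, ∀ j, v n j ≤ C * v m (j + 1)

/-- `N_T(U, W)`. -/
def returns {E : Type*} (T : E → E) (U W : Set E) : Set ℕ := {n | (T^[n] '' U ∩ W).Nonempty}

/-- `A` is syndetic. -/
def Syndetic (A : Set ℕ) : Prop := ∃ q, ∀ n, ∃ i ≤ q, n + i ∈ A

/-- `T` is topologically ergodic. -/
def TopErgodic {E : Type*} (τ : TopologicalSpace E) (T : E → E) : Prop :=
  ∀ U W : Set E, IsOpen[τ] U → U.Nonempty → IsOpen[τ] W → W.Nonempty → Syndetic (returns T U W)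

/-- `T` is sequentially hypercyclic: every point is the limit of a sequence from some orbit. -/
def SeqHypercyclic {E : Type*} (τ : TopologicalSpace E) (T : E → E) : Prop :=
  ∃ x, ∀ y, ∃ n : ℕ → ℕ, Tendsto (fun k => T^[n k] x) atTop (@nhds _ τ y)

/-- The Grothendieck-Pietsch criterion for the nuclearity of `k_p(V)`. -/
def Nuclear (v : ℕ → ℕ → ℝ) : Prop := ∀ m, ∃ n, Summable fun j => v n j / v m j

/-- The weaker condition (S) (`k_p(V)` is a Schwartz space). -/
def Schwartz (v : ℕ → ℕ → ℝ) : Prop := ∀ m, ∃ n, Tendsto (fun j => v n j / v m j) atTop (𝓝 0)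

end Defs

section Basic

variable {𝕜 : Type*} [RCLike 𝕜] {p : ℝ≥0∞}

theorem mem_of_le (hp : 1 ≤ p) {f g : ℕ → 𝕜} {C : ℝ} (h : ∀ j, ‖g j‖ ≤ C * ‖f j‖)
    (hf : Memℓp f p ∧ (p = ∞ → Tendsto f atTop (𝓝 0))) :
    Memℓp g p ∧ (p = ∞ → Tendsto g atTop (𝓝 0)) := by
  have h' : ∀ j, ‖g j‖ ≤ |C| * ‖f j‖ := fun j =>
    (h j).trans (mul_le_mul_of_nonneg_right (le_abs_self C) (norm_nonneg _))
  by_cases hp' : p = ∞
  · subst hp'
    refine ⟨?_, fun _ => ?_⟩
    · rw [memℓp_infty_iff]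
      obtain ⟨A, hA⟩ := (memℓp_infty_iff.1 hf.1)
      refine ⟨|C| * A, ?_⟩
      rintro _ ⟨j, rfl⟩
      exact (h' j).trans (mul_le_mul_of_nonneg_left (hA ⟨j, rfl⟩) (abs_nonneg _))
    · rw [tendsto_zero_iff_norm_tendsto_zero]
      refine squeeze_zero (fun _ => norm_nonneg _) h' ?_
      have := ((tendsto_zero_iff_norm_tendsto_zero.1 (hf.2 rfl)).const_mul |C|)
      simpa using this
  · refine ⟨?_, fun hh => absurd hh hp'⟩
    have h0 : 0 < p.toReal :=
      ENNReal.toReal_pos (by intro h0; rw [h0] at hp; simp at hp) hp'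
    rw [memℓp_gen_iff h0]
    have hs := (memℓp_gen_iff h0).1 hf.1
    refine Summable.of_nonneg_of_le (fun j => by positivity) (fun j => ?_) (hs.mul_left (|C| ^ p.toReal))
    rw [← Real.mul_rpow (abs_nonneg _) (norm_nonneg _)]
    exact Real.rpow_le_rpow (norm_nonneg _) (h' j) h0.le

theorem norm_wt {w : ℕ → ℝ} (hw : ∀ j, 0 ≤ w j) (x : ℕ → 𝕜) (j : ℕ) : ‖wt w x j‖ = w j * ‖x j‖ := by
  rw [wt, norm_mul, RCLike.norm_ofReal, abs_of_nonneg (hw j)]

theorem IsWeights.anti' {v : ℕ → ℕ → ℝ} (hv : IsWeights v) {m n : ℕ} (h : m ≤ n) (j : ℕ) :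
    v n j ≤ v m j := by
  induction n, h using Nat.le_induction with
  | base => exact le_rfl
  | succ n _ ih => exact (hv.anti n j).trans ih

theorem step_mono (hp : 1 ≤ p) {v : ℕ → ℕ → ℝ} (hv : IsWeights v) {m n : ℕ} (h : m ≤ n) :
    step 𝕜 p (v m) ≤ step 𝕜 p (v n) := by
  intro x hx
  refine mem_of_le (C := 1) hp (fun j => ?_) hx
  rw [norm_wt (fun j => (hv.pos n j).le), norm_wt (fun j => (hv.pos m j).le), one_mul]
  exact mul_le_mul_of_nonneg_right (hv.anti' h j) (norm_nonneg _)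

theorem mem_K (hp : 1 ≤ p) {v : ℕ → ℕ → ℝ} (hv : IsWeights v) {x : ℕ → 𝕜} :
    x ∈ K 𝕜 p v ↔ ∃ m, x ∈ step 𝕜 p (v m) := by
  unfold K
  rw [Submodule.mem_iSup_of_directed]
  exact (monotone_nat_of_le_succ fun n => step_mono hp hv (Nat.le_succ n)).directed_le

theorem shift_mem (hp : 1 ≤ p) {v : ℕ → ℕ → ℝ} (hv : IsWeights v) (hc : ShiftCond v) {x : ℕ → 𝕜}
    (hx : x ∈ K 𝕜 p v) : (fun j => x (j + 1)) ∈ K 𝕜 p v := by
  obtain ⟨m, hm⟩ := (mem_K hp hv).1 hx
  obtain ⟨n, -, C, hC⟩ := hc m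
  refine (mem_K hp hv).2 ⟨n, ?_⟩
  have h1 : Memℓp (fun j => wt (v m) x (j + 1)) p ∧
      (p = ∞ → Tendsto (fun j => wt (v m) x (j + 1)) atTop (𝓝 0)) := by
    refine ⟨?_, fun h => (tendsto_add_atTop_iff_nat 1).2 (hm.2 h)⟩
    by_cases hp' : p = ∞
    · subst hp'
      rw [memℓp_infty_iff]
      obtain ⟨A, hA⟩ := (memℓp_infty_iff.1 hm.1)
      refine ⟨A, ?_⟩
      rintro _ ⟨j, rfl⟩
      exact hA ⟨j + 1, rfl⟩
    · have h0 : 0 < p.toReal :=
        ENNReal.toReal_pos (by intro h0; rw [h0] at hp; simp at hp) hp'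
      rw [memℓp_gen_iff h0]
      exact (summable_nat_add_iff 1).2 ((memℓp_gen_iff h0).1 hm.1)
  refine mem_of_le (C := C) hp (fun j => ?_) h1
  rw [norm_wt (fun j => (hv.pos n j).le), norm_wt (fun j => (hv.pos m j).le), ← mul_assoc]
  exact mul_le_mul_of_nonneg_right (hC j) (norm_nonneg _)

/-- The backward shift on `k_p(V)`. -/
def B (hp : 1 ≤ p) {v : ℕ → ℕ → ℝ} (hv : IsWeights v) (hc : ShiftCond v) : K 𝕜 p v → K 𝕜 p v :=
  fun x => ⟨fun j => (x : ℕ → 𝕜) (j + 1), shift_mem hp hv hc x.2⟩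

theorem B_iter (hp : 1 ≤ p) {v : ℕ → ℕ → ℝ} (hv : IsWeights v) (hc : ShiftCond v) (n : ℕ)
    (x : K 𝕜 p v) (j : ℕ) : ((B hp hv hc)^[n] x : ℕ → 𝕜) j = (x : ℕ → 𝕜) (j + n) := by
  induction n generalizing x with
  | zero => rfl
  | succ n ih =>
    rw [Function.iterate_succ_apply, ih]
    show (x : ℕ → 𝕜) (j + n + 1) = _
    rw [Nat.add_assoc]

theorem stepNorm_eq (hp : 1 ≤ p) {w : ℕ → ℝ} {x : ℕ → 𝕜} (hx : x ∈ step 𝕜 p w) :
    stepNorm p w x = ‖(⟨wt w x, hx.1⟩ : lp (fun _ : ℕ => 𝕜) p)‖ := by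
  unfold stepNorm
  split_ifs with h
  · subst h
    rw [lp.norm_eq_ciSup]
  · have h0 : 0 < p.toReal :=
      ENNReal.toReal_pos (by intro h0; rw [h0] at hp; simp at hp) h
    rw [lp.norm_eq_tsum_rpow h0]

theorem stepNorm_add_le (hp : 1 ≤ p) {w : ℕ → ℝ} {x y : ℕ → 𝕜} (hx : x ∈ step 𝕜 p w)
    (hy : y ∈ step 𝕜 p w) : stepNorm p w (x + y) ≤ stepNorm p w x + stepNorm p w y := by
  have : Fact (1 ≤ p) := ⟨hp⟩
  rw [stepNorm_eq hp hx, stepNorm_eq hp hy, stepNorm_eq hp (Submodule.add_mem _ hx hy)]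
  have e : (⟨wt w (x + y), (Submodule.add_mem _ hx hy).1⟩ : lp (fun _ : ℕ => 𝕜) p) =
      ⟨wt w x, hx.1⟩ + ⟨wt w y, hy.1⟩ := by
    ext j
    exact mul_add _ _ _
  rw [e]
  exact norm_add_le _ _

/-- The `ℓ_1` bound. -/
theorem step_of_summable (hp : 1 ≤ p) {w : ℕ → ℝ} (hw : ∀ j, 0 ≤ w j) {x : ℕ → 𝕜}
    (hx : Summable fun j => w j * ‖x j‖) :
    x ∈ step 𝕜 p w ∧ stepNorm p w x ≤ ∑' j, w j * ‖x j‖ := by
  have : Fact (1 ≤ p) := ⟨hp⟩
  have hx1 : Summable fun j => ‖wt w x j‖ := by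
    simp_rw [norm_wt hw]; exact hx
  have hm1 : Memℓp (wt w x) 1 := by
    rw [memℓp_gen_iff (by simp)]
    simpa using hx1
  have hmem : x ∈ step 𝕜 p w := by
    refine ⟨hm1.of_exponent_ge hp, fun _ => ?_⟩
    exact tendsto_zero_iff_norm_tendsto_zero.2 hx1.tendsto_atTop_zero
  refine ⟨hmem, ?_⟩
  set T := ∑' j, w j * ‖x j‖ with hT
  have hT' : T = ∑' j, ‖wt w x j‖ := by simp_rw [norm_wt hw]; rfl
  have hle : ∀ j, ‖wt w x j‖ ≤ T := fun j => by
    rw [hT']
    exact hx1.le_tsum j fun _ _ => norm_nonneg _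
  have hT0 : 0 ≤ T := (norm_nonneg _).trans (hle 0)
  rw [stepNorm_eq hp hmem]
  by_cases hp' : p = ∞
  · subst hp'
    exact lp.norm_le_of_forall_le hT0 hle
  · have h1 : 1 ≤ p.toReal := by
      have := ENNReal.toReal_mono hp' hp
      simpa using this
    have h0 : 0 < p.toReal := by linarith
    refine lp.norm_le_of_tsum_le h0 hT0 ?_
    have hb : ∀ j, ‖wt w x j‖ ^ p.toReal ≤ T ^ (p.toReal - 1) * ‖wt w x j‖ := by
      intro j
      rcases eq_or_lt_of_le (norm_nonneg (wt w x j)) with h | h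
      · rw [← h, Real.zero_rpow h0.ne', mul_zero]
      · have e : ‖wt w x j‖ ^ p.toReal = ‖wt w x j‖ ^ (p.toReal - 1) * ‖wt w x j‖ := by
          rw [← Real.rpow_add_one h.ne']
          congr 1; ring
        rw [e]
        exact mul_le_mul_of_nonneg_right
          (Real.rpow_le_rpow (norm_nonneg _) (hle j) (by linarith)) (norm_nonneg _)
    have hs : Summable fun j => T ^ (p.toReal - 1) * ‖wt w x j‖ := hx1.mul_left _
    calc ∑' j, ‖wt w x j‖ ^ p.toReal ≤ ∑' j, T ^ (p.toReal - 1) * ‖wt w x j‖ :=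
          Summable.tsum_le_tsum hb (Summable.of_nonneg_of_le (fun _ => by positivity) hb hs) hs
      _ = T ^ (p.toReal - 1) * T := by rw [tsum_mul_left, ← hT']
      _ = T ^ p.toReal := by
          rcases eq_or_lt_of_le hT0 with h | h
          · rw [← h, mul_zero, Real.zero_rpow h0.ne']
          · rw [← Real.rpow_add_one h.ne']
            congr 1; ring


/-- Tails are small. -/
theorem tail_small (hp : 1 ≤ p) {w : ℕ → ℝ} {x : ℕ → 𝕜} (hx : x ∈ step 𝕜 p w)
    {ε : ℝ} (hε : 0 < ε) : ∃ N : ℕ, (fun j => if j < N then 0 else x j) ∈ step 𝕜 p w ∧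
      stepNorm p w (fun j => if j < N then 0 else x j) ≤ ε := by
  have hmem : ∀ N : ℕ, (fun j => if j < N then 0 else x j) ∈ step 𝕜 p w := by
    intro N
    refine mem_of_le (C := 1) hp (fun j => ?_) hx
    rw [one_mul]
    by_cases h : j < N
    · simp only [wt, h, if_true, mul_zero, norm_zero]
      exact norm_nonneg _
    · simp [wt, h]
  have hnorm : ∀ N j, ‖wt w (fun j => if j < N then 0 else x j) j‖ =
      if j < N then 0 else ‖wt w x j‖ := by
    intro N j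
    by_cases h : j < N
    · simp [wt, h]
    · simp [wt, h]
  by_cases hp' : p = ∞
  · subst hp'
    have h1 := tendsto_zero_iff_norm_tendsto_zero.1 (hx.2 rfl)
    obtain ⟨N, hN⟩ := (h1.eventually (gt_mem_nhds hε)).exists_forall_of_atTop
    refine ⟨N, hmem N, ?_⟩
    unfold stepNorm
    rw [if_pos rfl]
    refine ciSup_le fun j => ?_
    rw [hnorm]
    split_ifs with h
    · exact hε.le
    · exact (hN j (not_lt.1 h)).le
  · have h0 : 0 < p.toReal :=
      ENNReal.toReal_pos (by intro h0; rw [h0] at hp; simp at hp) hp'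
    have hs := (memℓp_gen_iff h0).1 hx.1
    have ht : Tendsto (fun N => ∑' j, ‖wt w x (j + N)‖ ^ p.toReal) atTop (𝓝 0) :=
      tendsto_sum_nat_add fun j => ‖wt w x j‖ ^ p.toReal
    have hε' : 0 < ε ^ p.toReal := Real.rpow_pos_of_pos hε _
    obtain ⟨N, hN⟩ := (ht.eventually (gt_mem_nhds hε')).exists
    refine ⟨N, hmem N, ?_⟩
    unfold stepNorm
    rw [if_neg hp']
    have e : ∑' j, ‖wt w (fun j => if j < N then 0 else x j) j‖ ^ p.toReal =
        ∑' j, ‖wt w x (j + N)‖ ^ p.toReal := by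
      have hs' : Summable fun j => ‖wt w (fun j => if j < N then 0 else x j) j‖ ^ p.toReal :=
        (memℓp_gen_iff h0).1 (hmem N).1
      rw [← hs'.sum_add_tsum_nat_add N]
      have h2 : ∑ i ∈ Finset.range N,
          ‖wt w (fun j => if j < N then 0 else x j) i‖ ^ p.toReal = 0 := by
        refine Finset.sum_eq_zero fun i hi => ?_
        rw [hnorm, if_pos (Finset.mem_range.1 hi), Real.zero_rpow h0.ne']
      rw [h2, zero_add]
      refine tsum_congr fun j => ?_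
      rw [hnorm, if_neg (by omega)]
    rw [e]
    calc (∑' j, ‖wt w x (j + N)‖ ^ p.toReal) ^ (1 / p.toReal)
        ≤ (ε ^ p.toReal) ^ (1 / p.toReal) :=
          Real.rpow_le_rpow (tsum_nonneg fun _ => by positivity) hN.le (by positivity)
      _ = ε := by
          rw [← Real.rpow_mul hε.le, mul_one_div_cancel h0.ne', Real.rpow_one]

/-- Finitely supported vectors with coordinates in a countable dense set. -/
noncomputable def vec (𝕜 : Type*) [RCLike 𝕜] (a : ℕ × (ℕ →₀ ℕ)) : ℕ → 𝕜 :=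
  fun j => if j < a.1 then TopologicalSpace.denseSeq 𝕜 (a.2 j) else 0

theorem vec_approx (hp : 1 ≤ p) {w : ℕ → ℝ} (hw : ∀ j, 0 ≤ w j) {x : ℕ → 𝕜}
    (hx : x ∈ step 𝕜 p w) {ε : ℝ} (hε : 0 < ε) :
    ∃ a, (fun j => vec 𝕜 a j - x j) ∈ step 𝕜 p w ∧ stepNorm p w (fun j => vec 𝕜 a j - x j) < ε := by
  obtain ⟨N, hN1, hN2⟩ := tail_small hp hx (half_pos hε)
  have hd : ∀ j, ∃ i, ‖TopologicalSpace.denseSeq 𝕜 i - x j‖ < ε / (4 * (N + 1) * (w j + 1)) := by
    intro j
    have hpos : 0 < ε / (4 * (N + 1) * (w j + 1)) := by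
      have := hw j
      positivity
    obtain ⟨y, hy, ⟨i, rfl⟩⟩ :=
      Metric.dense_iff.1 (TopologicalSpace.denseRange_denseSeq 𝕜) (x j) _ hpos
    exact ⟨i, by rwa [Metric.mem_ball, dist_eq_norm] at hy⟩
  choose i hi using hd
  classical
  set a : ℕ × (ℕ →₀ ℕ) := (N, Finsupp.onFinset (Finset.range N) (fun j => if j < N then i j else 0)
    (fun j hj => by
      by_contra h
      rw [Finset.mem_range] at h
      simp [h] at hj)) with ha
  set z : ℕ → 𝕜 := fun j => if j < N then TopologicalSpace.denseSeq 𝕜 (i j) - x j else 0 with hz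
  have hva : ∀ j, vec 𝕜 a j - x j = z j + (-1 : 𝕜) • (if j < N then 0 else x j) := by
    intro j
    by_cases h : j < N
    · simp [vec, ha, hz, h]
    · simp [vec, ha, hz, h]
  have hfin : ∀ j ∉ Finset.range N, w j * ‖z j‖ = 0 := by
    intro j hj
    rw [Finset.mem_range] at hj
    simp [hz, hj]
  have hsum : Summable fun j => w j * ‖z j‖ := summable_of_ne_finset_zero hfin
  obtain ⟨hz1, hz2⟩ := step_of_summable hp hw hsum
  have hz3 : ∑' j, w j * ‖z j‖ < ε / 2 := by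
    rw [tsum_eq_sum hfin]
    have h1 : ∀ j ∈ Finset.range N, w j * ‖z j‖ ≤ ε / (4 * (N + 1)) := by
      intro j hj
      rw [Finset.mem_range] at hj
      have h2 : ‖z j‖ ≤ ε / (4 * (N + 1) * (w j + 1)) := by
        simp only [hz, hj, if_true]
        exact (hi j).le
      have hwj := hw j
      calc w j * ‖z j‖ ≤ (w j + 1) * (ε / (4 * (N + 1) * (w j + 1))) := by
            apply mul_le_mul (by linarith) h2 (norm_nonneg _) (by linarith)
        _ = ε / (4 * (N + 1)) := by field_simp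
    calc ∑ j ∈ Finset.range N, w j * ‖z j‖ ≤ ∑ _j ∈ Finset.range N, ε / (4 * (N + 1)) :=
          Finset.sum_le_sum h1
      _ = N * (ε / (4 * (N + 1))) := by simp
      _ < ε / 2 := by
          rw [mul_div_assoc', div_lt_div_iff₀ (by positivity) (by positivity)]
          nlinarith [hε, (Nat.cast_nonneg N : (0 : ℝ) ≤ N)]
  have e : (fun j => vec 𝕜 a j - x j) = z + (-1 : 𝕜) • (fun j => if j < N then 0 else x j) := by
    funext j
    rw [hva j]
    rfl
  have hm2 : (-1 : 𝕜) • (fun j => if j < N then 0 else x j) ∈ step 𝕜 p w :=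
    Submodule.smul_mem _ _ hN1
  refine ⟨a, ?_, ?_⟩
  · rw [e]
    exact Submodule.add_mem _ hz1 hm2
  · rw [e]
    have h5 : stepNorm p w ((-1 : 𝕜) • (fun j => if j < N then 0 else x j)) =
        stepNorm p w (fun j => if j < N then 0 else x j) := by
      have h6 : ∀ j, ‖wt w ((-1 : 𝕜) • (fun j => if j < N then 0 else x j)) j‖ =
          ‖wt w (fun j => if j < N then 0 else x j) j‖ := by
        intro j
        by_cases h : j < N
        · simp [wt, h]
        · simp [wt, h]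
      unfold stepNorm
      simp_rw [h6]
    have h7 := stepNorm_add_le hp hz1 hm2
    rw [h5] at h7
    linarith


/-- The tails of the hypercyclic vector. -/
def tl (y : ℕ → ℕ → 𝕜) (n : ℕ → ℕ) (N k : ℕ) (i : ℕ) : 𝕜 :=
  ∑ l ∈ Finset.range (i + N + 1), if k ≤ l ∧ n l ≤ i + N then y l (i + N - n l) else 0

theorem tl_bound {u : ℕ → ℝ} (hu : ∀ j, 0 ≤ u j) {y : ℕ → ℕ → 𝕜} {len : ℕ → ℕ}
    (hy : ∀ l j, len l ≤ j → y l j = 0) {n R : ℕ → ℕ}
    (hR : ∀ l, ∀ r ≥ R l, ∑ i ∈ Finset.range (len l), u (i + r) * ‖y l i‖ ≤ (1 / 2) ^ (l + 1))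
    {N k : ℕ} (hk : ∀ l ≥ k, N + R l ≤ n l) :
    (Summable fun i => u i * ‖tl y n N k i‖) ∧ ∑' i, u i * ‖tl y n N k i‖ ≤ (1 / 2) ^ k := by
  have main : ∀ s : Finset ℕ, ∑ i ∈ s, u i * ‖tl y n N k i‖ ≤ (1 / 2) ^ k := by
    intro s
    have h1 : ∀ i, u i * ‖tl y n N k i‖ ≤ ∑ l ∈ Finset.range (i + N + 1),
        if k ≤ l ∧ n l ≤ i + N then u i * ‖y l (i + N - n l)‖ else 0 := by
      intro i
      unfold tl
      calc u i * ‖∑ l ∈ Finset.range (i + N + 1),
            if k ≤ l ∧ n l ≤ i + N then y l (i + N - n l) else 0‖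
          ≤ u i * ∑ l ∈ Finset.range (i + N + 1),
            ‖if k ≤ l ∧ n l ≤ i + N then y l (i + N - n l) else 0‖ :=
            mul_le_mul_of_nonneg_left (norm_sum_le _ _) (hu i)
        _ = _ := by
            rw [Finset.mul_sum]
            refine Finset.sum_congr rfl fun l _ => ?_
            split_ifs <;> simp
    set L := s.sup id + N + 1 with hL
    have h2 : ∀ i ∈ s, u i * ‖tl y n N k i‖ ≤ ∑ l ∈ Finset.range L,
        if k ≤ l ∧ n l ≤ i + N then u i * ‖y l (i + N - n l)‖ else 0 := by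
      intro i hi
      refine (h1 i).trans (Finset.sum_le_sum_of_subset_of_nonneg ?_ ?_)
      · intro l hl
        have : i ≤ s.sup id := Finset.le_sup (f := id) hi
        rw [Finset.mem_range] at hl ⊢
        omega
      · intro l _ _
        split_ifs
        · exact mul_nonneg (hu i) (norm_nonneg _)
        · exact le_rfl
    have h3 : ∀ l, ∑ i ∈ s, (if k ≤ l ∧ n l ≤ i + N then u i * ‖y l (i + N - n l)‖ else 0) ≤
        if k ≤ l then (1 / 2 : ℝ) ^ (l + 1) else 0 := by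
      intro l
      by_cases hkl : k ≤ l
      · rw [if_pos hkl]
        have hnl := hk l hkl
        refine le_trans ?_ (hR l (n l - N) (by omega))
        have h4 : ∑ i ∈ s, (if k ≤ l ∧ n l ≤ i + N then u i * ‖y l (i + N - n l)‖ else 0) =
            ∑ i ∈ s.filter (fun i => n l ≤ i + N ∧ i + N - n l < len l),
              u i * ‖y l (i + N - n l)‖ := by
          rw [Finset.sum_filter]
          refine Finset.sum_congr rfl fun i _ => ?_
          by_cases h5 : n l ≤ i + N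
          · by_cases h6 : i + N - n l < len l
            · simp [hkl, h5, h6]
            · simp [hkl, h5, h6, hy l _ (not_lt.1 h6)]
          · simp [h5]
        rw [h4]
        have h7 : ∑ i ∈ s.filter (fun i => n l ≤ i + N ∧ i + N - n l < len l),
              u i * ‖y l (i + N - n l)‖ =
            ∑ j ∈ (s.filter (fun i => n l ≤ i + N ∧ i + N - n l < len l)).image
              (fun i => i + N - n l), u (j + (n l - N)) * ‖y l j‖ := by
          rw [Finset.sum_image]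
          · refine Finset.sum_congr rfl fun i hi => ?_
            rw [Finset.mem_filter] at hi
            congr 2
            omega
          · intro i hi j hj hij
            simp only [Finset.coe_filter, mem_ofPred_eq] at hi hj
            simp only at hij
            omega
        rw [h7]
        refine Finset.sum_le_sum_of_subset_of_nonneg ?_ ?_
        · intro j hj
          rw [Finset.mem_image] at hj
          obtain ⟨i, hi, rfl⟩ := hj
          rw [Finset.mem_filter] at hi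
          exact Finset.mem_range.2 hi.2.2
        · intro j _ _
          exact mul_nonneg (hu _) (norm_nonneg _)
      · rw [if_neg hkl]
        refine (Finset.sum_eq_zero fun i _ => ?_).le
        rw [if_neg fun h => hkl h.1]
    have h8 : ∀ L : ℕ, ∑ l ∈ Finset.range L, (if k ≤ l then (1 / 2 : ℝ) ^ (l + 1) else 0) ≤
        (1 / 2) ^ k - (if k ≤ L then (1 / 2 : ℝ) ^ L else 0) := by
      intro L
      induction L with
      | zero =>
        by_cases h : k = 0
        · subst h; simp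
        · have : ¬ k ≤ 0 := by omega
          simp [h]
      | succ L ih =>
        rw [Finset.sum_range_succ]
        by_cases h : k ≤ L
        · rw [if_pos h] at ih
          rw [if_pos h, if_pos (by omega)]
          have : (1 / 2 : ℝ) ^ (L + 1) = (1 / 2) ^ L / 2 := by rw [pow_succ]; ring
          linarith
        · rw [if_neg h] at ih
          rw [if_neg h]
          by_cases h9 : k ≤ L + 1
          · have : k = L + 1 := by omega
            rw [if_pos h9, ← this]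
            have h10 : ∑ l ∈ Finset.range L, (if k ≤ l then (1 / 2 : ℝ) ^ (l + 1) else 0) = 0 := by
              refine Finset.sum_eq_zero fun l hl => ?_
              rw [Finset.mem_range] at hl
              rw [if_neg (by omega)]
            rw [h10]; simp
          · rw [if_neg h9]
            linarith
    calc ∑ i ∈ s, u i * ‖tl y n N k i‖
        ≤ ∑ i ∈ s, ∑ l ∈ Finset.range L,
          (if k ≤ l ∧ n l ≤ i + N then u i * ‖y l (i + N - n l)‖ else 0) := Finset.sum_le_sum h2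
      _ = ∑ l ∈ Finset.range L, ∑ i ∈ s,
          (if k ≤ l ∧ n l ≤ i + N then u i * ‖y l (i + N - n l)‖ else 0) := Finset.sum_comm
      _ ≤ ∑ l ∈ Finset.range L, (if k ≤ l then (1 / 2 : ℝ) ^ (l + 1) else 0) :=
          Finset.sum_le_sum fun l _ => h3 l
      _ ≤ (1 / 2) ^ k - (if k ≤ L then (1 / 2 : ℝ) ^ L else 0) := h8 L
      _ ≤ (1 / 2) ^ k := by
          have : (0 : ℝ) ≤ (if k ≤ L then (1 / 2 : ℝ) ^ L else 0) := by split_ifs <;> positivity
          linarith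
  have hnn : ∀ i, 0 ≤ u i * ‖tl y n N k i‖ := fun i => mul_nonneg (hu i) (norm_nonneg _)
  exact ⟨summable_of_sum_le hnn main, Real.tsum_le_of_sum_le hnn main⟩

/-- A vector with many prescribed shifts. -/
theorem exists_vector {u : ℕ → ℝ} (hu : ∀ j, 0 ≤ u j) (hu0 : Tendsto u atTop (𝓝 0))
    (y : ℕ → ℕ → 𝕜) (len : ℕ → ℕ) (hy : ∀ l j, len l ≤ j → y l j = 0) :
    ∃ (x : ℕ → 𝕜) (n : ℕ → ℕ), (Summable fun i => u i * ‖x i‖) ∧
      ∀ k, (Summable fun i => u i * ‖x (i + n k) - y k i‖) ∧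
        ∑' i, u i * ‖x (i + n k) - y k i‖ ≤ (1 / 2) ^ (k + 1) := by
  have hR : ∀ l, ∃ R, 1 ≤ R ∧ len (l - 1) ≤ R ∧
      ∀ r ≥ R, ∑ i ∈ Finset.range (len l), u (i + r) * ‖y l i‖ ≤ (1 / 2) ^ (l + 1) := by
    intro l
    have h1 : Tendsto (fun r => ∑ i ∈ Finset.range (len l), u (i + r) * ‖y l i‖) atTop (𝓝 0) := by
      have h2 : ∀ i ∈ Finset.range (len l),
          Tendsto (fun r => u (i + r) * ‖y l i‖) atTop (𝓝 (0 * ‖y l i‖)) := by
        intro i _
        refine Tendsto.mul_const _ ?_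
        have := (tendsto_add_atTop_iff_nat (f := u) i).2 hu0
        simpa [add_comm] using this
      have h3 := tendsto_finsetSum _ h2
      simpa using h3
    obtain ⟨R0, hR0⟩ := (h1.eventually (ge_mem_nhds (show (0 : ℝ) < (1 / 2) ^ (l + 1) by
      positivity))).exists_forall_of_atTop
    exact ⟨max 1 (max (len (l - 1)) R0), le_max_left _ _,
      (le_max_left _ _).trans (le_max_right _ _),
      fun r hr => hR0 r (((le_max_right _ _).trans (le_max_right _ _)).trans hr)⟩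
  choose R hR1 hR2 hR3 using hR
  set n : ℕ → ℕ := fun l => ∑ i ∈ Finset.range (l + 1), R i with hn
  have hns : ∀ l, n (l + 1) = n l + R (l + 1) := fun l => Finset.sum_range_succ _ _
  have hnmono : Monotone n := monotone_nat_of_le_succ fun l => by rw [hns]; omega
  have hnl : ∀ l, l + 1 ≤ n l := by
    intro l
    induction l with
    | zero => simpa [hn] using hR1 0
    | succ l ih => rw [hns]; have := hR1 (l + 1); omega
  have hnR : ∀ l, R l ≤ n l := by
    intro l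
    cases l with
    | zero => simp [hn]
    | succ l => rw [hns]; omega
  have hgap : ∀ {k l}, k < l → n k + R l ≤ n l := by
    intro k l hkl
    obtain ⟨l, rfl⟩ : ∃ l', l = l' + 1 := ⟨l - 1, by omega⟩
    rw [hns]
    have := hnmono (show k ≤ l by omega)
    omega
  have hlen : ∀ {k l}, k < l → n k + len k ≤ n l := by
    intro k l hkl
    have h1 : n k + R (k + 1) ≤ n l := by
      rw [← hns]; exact hnmono hkl
    have h2 := hR2 (k + 1)
    rw [Nat.add_sub_cancel] at h2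
    omega
  refine ⟨tl y n 0 0, n, ?_, fun k => ?_⟩
  · exact (tl_bound hu hy hR3 (fun l _ => by simpa using hnR l)).1
  · have e : ∀ i, tl y n 0 0 (i + n k) - y k i = tl y n (n k) (k + 1) i := by
      intro i
      have h1 : y k i = ∑ l ∈ Finset.range (i + n k + 1), if l = k then y k i else 0 := by
        rw [Finset.sum_ite_eq', if_pos]
        rw [Finset.mem_range]
        have := hnl k
        omega
      unfold tl
      rw [h1]
      simp only [Nat.add_zero, Nat.zero_le, true_and]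
      rw [← Finset.sum_sub_distrib]
      refine Finset.sum_congr rfl fun l _ => ?_
      rcases lt_trichotomy l k with h | h | h
      · have h2 := hlen h
        rw [if_pos (by omega), if_neg (by omega), if_neg (by omega), sub_zero]
        exact hy l _ (by omega)
      · subst h
        rw [if_pos (by omega), if_pos rfl, if_neg (by omega)]
        rw [Nat.add_sub_cancel, sub_self]
      · rw [if_neg (by omega : ¬ l = k), sub_zero]
        by_cases h3 : n l ≤ i + n k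
        · rw [if_pos h3, if_pos ⟨h, h3⟩]
        · rw [if_neg h3, if_neg (fun hh => h3 hh.2)]
    simp_rw [e]
    exact tl_bound hu hy hR3 (fun l hl => hgap hl)


theorem nuclear_schwartz {v : ℕ → ℕ → ℝ} (h : Nuclear v) : Schwartz v := fun m => by
  obtain ⟨n, hn⟩ := h m
  exact ⟨n, hn.tendsto_atTop_zero⟩

/-- Syndetic smallness implies that some weight tends to zero. -/
theorem weights_tendsto {v : ℕ → ℕ → ℝ} (hv : IsWeights v) (hc : ShiftCond v) (hS : Schwartz v)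
    {m q : ℕ} (h : ∀ i, ∃ s ≤ q, v m (i + s) < 1) : ∃ n, Tendsto (v n) atTop (𝓝 0) := by
  have key : ∀ r : ℕ, ∃ n, ∀ ε > 0, ∃ J, ∀ j ≥ J, (∃ s ≤ r, v m (j + s) < 1) → v n j < ε := by
    intro r
    induction r with
    | zero =>
      obtain ⟨n, hn⟩ := hS m
      refine ⟨n, fun ε hε => ?_⟩
      obtain ⟨J, hJ⟩ := (hn.eventually (gt_mem_nhds hε)).exists_forall_of_atTop
      refine ⟨J, fun j hj hs => ?_⟩
      obtain ⟨s, hs, hs'⟩ := hs
      obtain rfl : s = 0 := by omega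
      have h1 := hJ j hj
      rw [div_lt_iff₀ (hv.pos m j)] at h1
      rw [Nat.add_zero] at hs'
      nlinarith [hv.pos m j]
    | succ r ih =>
      obtain ⟨n, hn⟩ := ih
      obtain ⟨n', hnn, C, hC⟩ := hc n
      refine ⟨n', fun ε hε => ?_⟩
      have hC0 : 0 < C := by
        have h1 := hC 0
        have h2 := hv.pos n' 0
        have h3 := hv.pos n (0 + 1)
        by_contra hcon
        push Not at hcon
        nlinarith
      obtain ⟨J1, hJ1⟩ := hn ε hε
      obtain ⟨J2, hJ2⟩ := hn (ε / C) (by positivity)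
      refine ⟨max J1 J2, fun j hj hs => ?_⟩
      obtain ⟨s, hs, hs'⟩ := hs
      rcases Nat.eq_zero_or_pos s with h0 | h0
      · subst h0
        exact (hv.anti' hnn j).trans_lt
          (hJ1 j ((le_max_left _ _).trans hj) ⟨0, Nat.zero_le _, hs'⟩)
      · have h1 := hJ2 (j + 1) (((le_max_right _ _).trans hj).trans (Nat.le_succ j))
          ⟨s - 1, by omega, by
            have e : j + 1 + (s - 1) = j + s := by omega
            rwa [e]⟩
        have h2 := hC j
        rw [lt_div_iff₀ hC0] at h1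
        linarith
  obtain ⟨n, hn⟩ := key q
  refine ⟨n, ?_⟩
  rw [Metric.tendsto_atTop]
  intro ε hε
  obtain ⟨J, hJ⟩ := hn ε hε
  refine ⟨J, fun j hj => ?_⟩
  rw [Real.dist_eq, sub_zero, abs_of_pos (hv.pos n j)]
  exact hJ j hj (h j)

/-- If no weight is syndetically small, all weights are bounded below on a thick set. -/
theorem exists_thick {v : ℕ → ℕ → ℝ} (hv : IsWeights v) (hS : Schwartz v)
    (hneg : ¬ ∃ m, ∀ ε > 0, ∃ q, ∀ i, ∃ s ≤ q, v m (i + s) < ε) :
    ∃ Z : Set ℕ, 0 ∈ Z ∧ (∀ k, ∃ i, ∀ s ≤ k, i + s ∈ Z) ∧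
      ∀ m, ∃ α : ℝ, 0 < α ∧ ∀ j ∈ Z, 1 ≤ α * v m j := by
  push Not at hneg
  have h1 : ∀ k, ∃ i, ∀ s ≤ k, 1 ≤ v k (i + s) := by
    intro k
    obtain ⟨n, hn⟩ := hS k
    obtain ⟨ε, hε, h⟩ := hneg n
    obtain ⟨J, hJ⟩ := (hn.eventually (gt_mem_nhds hε)).exists_forall_of_atTop
    obtain ⟨i, hi⟩ := h (J + k)
    refine ⟨i + J, fun s hs => ?_⟩
    have h2 := hi (J + s) (by omega)
    have e : i + (J + s) = i + J + s := by omega
    rw [e] at h2
    have h3 := hJ (i + J + s) (by omega)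
    rw [div_lt_iff₀ (hv.pos k _)] at h3
    have h4 : ε < ε * v k (i + J + s) := h2.trans_lt h3
    by_contra hcon
    push Not at hcon
    nlinarith [hv.pos k (i + J + s)]
  choose i hi using h1
  refine ⟨{j | j = 0 ∨ ∃ k, ∃ s ≤ k, j = i k + s}, Or.inl rfl,
    fun k => ⟨i k, fun s hs => Or.inr ⟨k, s, hs, rfl⟩⟩, fun m => ?_⟩
  set α : ℝ := 1 + (1 / v m 0 + ∑ k ∈ Finset.range m, ∑ s ∈ Finset.range (k + 1),
    1 / v m (i k + s)) with hα
  have hpos : ∀ j, 0 ≤ 1 / v m j := fun j => (one_div_pos.2 (hv.pos m j)).le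
  have hS0 : 0 ≤ ∑ k ∈ Finset.range m, ∑ s ∈ Finset.range (k + 1), 1 / v m (i k + s) :=
    Finset.sum_nonneg fun k _ => Finset.sum_nonneg fun s _ => hpos _
  have hα0 : 1 ≤ α := by
    have := hpos 0
    linarith
  refine ⟨α, by linarith, ?_⟩
  have hdiv : ∀ j, 1 / v m j ≤ α → 1 ≤ α * v m j := by
    intro j hj
    rwa [div_le_iff₀ (hv.pos m j)] at hj
  rintro j (rfl | ⟨k, s, hs, rfl⟩)
  · exact hdiv 0 (by linarith)
  · by_cases hkm : k < m
    · refine hdiv _ ?_
      have h2 : 1 / v m (i k + s) ≤ ∑ s ∈ Finset.range (k + 1), 1 / v m (i k + s) :=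
        Finset.single_le_sum (f := fun s => 1 / v m (i k + s)) (fun s _ => hpos _)
          (Finset.mem_range.2 (by omega))
      have h3 : ∑ s ∈ Finset.range (k + 1), 1 / v m (i k + s) ≤
          ∑ k ∈ Finset.range m, ∑ s ∈ Finset.range (k + 1), 1 / v m (i k + s) :=
        Finset.single_le_sum (f := fun k => ∑ s ∈ Finset.range (k + 1), 1 / v m (i k + s))
          (fun k _ => Finset.sum_nonneg fun s _ => hpos _) (Finset.mem_range.2 hkm)
      have := hpos 0
      linarith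
    · push Not at hkm
      have h2 := (hi k s hs).trans (hv.anti' hkm (i k + s))
      nlinarith

/-- Convergence in the inductive limit follows from convergence in a step. -/
theorem tendsto_ind {v : ℕ → ℕ → ℝ} {m : ℕ} {z : ℕ → K 𝕜 p v} {y : K 𝕜 p v}
    (hz : ∀ k, (z k : ℕ → 𝕜) ∈ step 𝕜 p (v m)) (hy : (y : ℕ → 𝕜) ∈ step 𝕜 p (v m))
    (h : Tendsto (fun k => stepNorm p (v m) (fun j => (z k : ℕ → 𝕜) j - (y : ℕ → 𝕜) j)) atTop
      (𝓝 0)) : Tendsto z atTop (@nhds _ (indTop 𝕜 p v) y) := by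
  unfold indTop
  rw [nhds_sInf]
  simp only [tendsto_iInf]
  intro τ hτ
  let _ := τ
  refine tendsto_nhds.2 ?_
  intro U hU hyU
  obtain ⟨δ, hδ, hδ'⟩ := hτ.2.2.2 m y hy U hU hyU
  filter_upwards [h.eventually (gt_mem_nhds hδ)] with k hk
  exact hδ' (z k) (hz k) hk

/-- Topological ergodicity implies syndetic smallness of a weight. -/
theorem syndetic_of_ergodic (hp : 1 ≤ p) {v : ℕ → ℕ → ℝ} (hv : IsWeights v) (hc : ShiftCond v)
    (hS : Schwartz v) (he : TopErgodic (indTop 𝕜 p v) (B hp hv hc)) :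
    ∃ m, ∀ ε > 0, ∃ q, ∀ i, ∃ s ≤ q, v m (i + s) < ε := by
  by_contra hneg
  obtain ⟨Z, hZ0, hZ, hα⟩ := exists_thick hv hS hneg
  have hfact : Fact (1 ≤ p) := ⟨hp⟩
  have hp0 : p ≠ 0 := (zero_lt_one.trans_le hp).ne'
  -- the bound of coordinates
  have hco : ∀ (m : ℕ) (α : ℝ), 0 < α → (∀ j ∈ Z, 1 ≤ α * v m j) → ∀ x : ℕ → 𝕜,
      x ∈ step 𝕜 p (v m) → ∀ j ∈ Z, ‖x j‖ ≤ α * stepNorm p (v m) x := by
    intro m α hα0 hα x hx j hj
    rw [stepNorm_eq hp hx]
    have h1 : ‖wt (v m) x j‖ ≤ ‖(⟨wt (v m) x, hx.1⟩ : lp (fun _ : ℕ => 𝕜) p)‖ :=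
      lp.norm_apply_le_norm hp0 (⟨wt (v m) x, hx.1⟩ : lp (fun _ : ℕ => 𝕜) p) j
    rw [norm_wt (fun j => (hv.pos m j).le)] at h1
    have h2 := mul_le_mul_of_nonneg_right (hα j hj) (norm_nonneg (x j))
    have h3 := mul_le_mul_of_nonneg_left h1 hα0.le
    nlinarith
  have hbd : ∀ x : K 𝕜 p v, Memℓp (fun j : Z => (x : ℕ → 𝕜) j) ∞ := by
    intro x
    obtain ⟨m, hm⟩ := (mem_K hp hv).1 x.2
    obtain ⟨α, hα0, hα1⟩ := hα m
    rw [memℓp_infty_iff]
    refine ⟨α * stepNorm p (v m) (x : ℕ → 𝕜), ?_⟩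
    rintro _ ⟨j, rfl⟩
    exact hco m α hα0 hα1 _ hm j j.2
  let T : K 𝕜 p v →ₗ[𝕜] lp (fun _ : Z => 𝕜) ∞ :=
    { toFun := fun x => ⟨fun j => (x : ℕ → 𝕜) j, hbd x⟩
      map_add' := fun x y => by ext j; rfl
      map_smul' := fun c x => by ext j; rfl }
  have hTj : ∀ (x : K 𝕜 p v) (j : Z), (T x : Z → 𝕜) j = (x : ℕ → 𝕜) j := fun _ _ => rfl
  have hle : indTop 𝕜 p v ≤ TopologicalSpace.induced T inferInstance := by
    refine sInf_le ⟨?_, ?_, ?_, ?_⟩
    · exact topologicalAddGroup_induced T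
    · exact continuousSMul_induced T
    · exact LocallyConvexSpace.induced (T.restrictScalars ℝ)
    · intro m x hx U hU hxU
      obtain ⟨O, hO, rfl⟩ := hU
      obtain ⟨r, hr, hrO⟩ := Metric.isOpen_iff.1 hO (T x) hxU
      obtain ⟨α, hα0, hα1⟩ := hα m
      refine ⟨r / (2 * α), by positivity, fun y hy hyx => ?_⟩
      apply hrO
      rw [Metric.mem_ball, dist_eq_norm]
      have h1 : (fun j => (y : ℕ → 𝕜) j - (x : ℕ → 𝕜) j) ∈ step 𝕜 p (v m) :=
        Submodule.sub_mem _ hy hx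
      refine lt_of_le_of_lt (lp.norm_le_of_forall_le (C := r / 2) (by positivity) fun j => ?_)
        (by linarith)
      have h2 := hco m α hα0 hα1 _ h1 j j.2
      have h3 : α * stepNorm p (v m) (fun j => (y : ℕ → 𝕜) j - (x : ℕ → 𝕜) j) ≤ r / 2 := by
        rw [lt_div_iff₀ (by positivity)] at hyx
        nlinarith
      exact h2.trans h3
  have hU : IsOpen[indTop 𝕜 p v] (T ⁻¹' {f | ‖f‖ < 1}) := by
    refine hle _ ⟨_, isOpen_lt continuous_norm continuous_const, rfl⟩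
  have hW : IsOpen[indTop 𝕜 p v] (T ⁻¹' {f | 1 < ‖f ⟨0, hZ0⟩‖}) := by
    refine hle _ ⟨_, isOpen_lt continuous_const ?_, rfl⟩
    exact (lp.evalCLM 𝕜 (fun _ : Z => 𝕜) ∞ ⟨0, hZ0⟩).continuous.norm
  have hUn : (T ⁻¹' {f | ‖f‖ < 1}).Nonempty := ⟨0, by simp⟩
  have hWn : (T ⁻¹' {f | 1 < ‖f ⟨0, hZ0⟩‖}).Nonempty := by
    have h1 : (Pi.single 0 (2 : 𝕜) : ℕ → 𝕜) ∈ step 𝕜 p (v 0) := by
      refine (step_of_summable hp (fun j => (hv.pos 0 j).le) ?_).1
      refine summable_of_ne_finset_zero (s := {0}) fun j hj => ?_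
      rw [Finset.mem_singleton] at hj
      simp [hj]
    refine ⟨⟨Pi.single 0 (2 : 𝕜), (mem_K hp hv).2 ⟨0, h1⟩⟩, ?_⟩
    show 1 < ‖(Pi.single 0 (2 : 𝕜) : ℕ → 𝕜) 0‖
    simp
  obtain ⟨q, hq⟩ := he _ _ hU hUn hW hWn
  obtain ⟨i, hi⟩ := hZ q
  obtain ⟨s, hs, hmem⟩ := hq i
  obtain ⟨_, ⟨x, hx, rfl⟩, hx'⟩ := hmem
  have h1 : 1 < ‖((B hp hv hc)^[i + s] x : ℕ → 𝕜) 0‖ := hx'
  rw [B_iter, Nat.zero_add] at h1
  have h2 : ‖(x : ℕ → 𝕜) (i + s)‖ ≤ ‖T x‖ :=
    lp.norm_apply_le_norm (by simp) (T x) ⟨i + s, hi s hs⟩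
  have h3 : ‖T x‖ < 1 := hx
  linarith

/-- Weights tending to zero give sequential hypercyclicity. -/
theorem hypercyclic_of_tendsto (hp : 1 ≤ p) {v : ℕ → ℕ → ℝ} (hv : IsWeights v) (hc : ShiftCond v)
    {n₀ : ℕ} (h0 : Tendsto (v n₀) atTop (𝓝 0)) :
    SeqHypercyclic (indTop 𝕜 p v) (B hp hv hc) := by
  obtain ⟨e, he⟩ := exists_surjective_nat (ℕ × (ℕ →₀ ℕ))
  set y : ℕ → ℕ → 𝕜 := fun k => vec 𝕜 (e k.unpair.1) with hy
  have hylen : ∀ l j, (e l.unpair.1).1 ≤ j → y l j = 0 := by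
    intro l j hj
    simp [hy, vec, not_lt.2 hj]
  obtain ⟨x, n, hx, hxn⟩ := exists_vector (fun j => (hv.pos n₀ j).le) h0 y _ hylen
  have hx1 := (step_of_summable hp (fun j => (hv.pos n₀ j).le) hx).1
  refine ⟨⟨x, (mem_K hp hv).2 ⟨n₀, hx1⟩⟩, fun z => ?_⟩
  obtain ⟨m₀, hm₀⟩ := (mem_K hp hv).1 z.2
  set M := max n₀ m₀ with hM
  have hzM : (z : ℕ → 𝕜) ∈ step 𝕜 p (v M) := step_mono hp hv (le_max_right _ _) hm₀
  have happ : ∀ i : ℕ, ∃ k ≥ i, (fun j => y k j - (z : ℕ → 𝕜) j) ∈ step 𝕜 p (v M) ∧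
      stepNorm p (v M) (fun j => y k j - (z : ℕ → 𝕜) j) < 1 / (i + 1) := by
    intro i
    obtain ⟨a, ha1, ha2⟩ := vec_approx hp (fun j => (hv.pos M j).le) hzM
      (show (0 : ℝ) < 1 / (i + 1) by positivity)
    obtain ⟨b, rfl⟩ := he a
    refine ⟨Nat.pair b i, Nat.right_le_pair b i, ?_⟩
    have e1 : y (Nat.pair b i) = vec 𝕜 (e b) := by simp [hy]
    rw [e1]
    exact ⟨ha1, ha2⟩
  choose k hk1 hk2 hk3 using happ
  -- the differences
  have hdiff : ∀ k, (fun j => x (j + n k) - y k j) ∈ step 𝕜 p (v M) ∧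
      stepNorm p (v M) (fun j => x (j + n k) - y k j) ≤ (1 / 2) ^ (k + 1) := by
    intro k
    have h1 : ∀ j, v M j * ‖x (j + n k) - y k j‖ ≤ v n₀ j * ‖x (j + n k) - y k j‖ := fun j =>
      mul_le_mul_of_nonneg_right (hv.anti' (le_max_left _ _) j) (norm_nonneg _)
    have h2 : Summable fun j => v M j * ‖x (j + n k) - y k j‖ :=
      Summable.of_nonneg_of_le (fun j => mul_nonneg (hv.pos M j).le (norm_nonneg _)) h1 (hxn k).1
    obtain ⟨h3, h4⟩ := step_of_summable hp (fun j => (hv.pos M j).le) h2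
    exact ⟨h3, h4.trans ((Summable.tsum_le_tsum h1 h2 (hxn k).1).trans (hxn k).2)⟩
  refine ⟨fun i => n (k i), ?_⟩
  have hcoe : ∀ i j, (((B hp hv hc)^[n (k i)] ⟨x, (mem_K hp hv).2 ⟨n₀, hx1⟩⟩ : K 𝕜 p v) : ℕ → 𝕜) j
      = x (j + n (k i)) := fun i j => B_iter hp hv hc _ _ _
  have hsplit : ∀ i, (fun j => x (j + n (k i)) - (z : ℕ → 𝕜) j) =
      (fun j => x (j + n (k i)) - y (k i) j) + (fun j => y (k i) j - (z : ℕ → 𝕜) j) := by
    intro i; funext j; simp
  have hmem : ∀ i, (fun j => x (j + n (k i)) - (z : ℕ → 𝕜) j) ∈ step 𝕜 p (v M) := by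
    intro i
    rw [hsplit]
    exact Submodule.add_mem _ (hdiff _).1 (hk2 i)
  refine tendsto_ind (m := M) (fun i => ?_) hzM ?_
  · have h1 := Submodule.add_mem _ (hmem i) hzM
    have h2 : (fun j => x (j + n (k i)) - (z : ℕ → 𝕜) j) + (z : ℕ → 𝕜) =
        (((B hp hv hc)^[n (k i)] ⟨x, (mem_K hp hv).2 ⟨n₀, hx1⟩⟩ : K 𝕜 p v) : ℕ → 𝕜) := by
      funext j
      rw [hcoe]
      simp
    rwa [h2] at h1
  · simp_rw [hcoe]
    have hb : ∀ i, stepNorm p (v M) (fun j => x (j + n (k i)) - (z : ℕ → 𝕜) j) ≤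
        (1 / 2) ^ (i + 1) + 1 / (i + 1) := by
      intro i
      rw [hsplit]
      refine (stepNorm_add_le hp (hdiff _).1 (hk2 i)).trans (add_le_add ?_ (hk3 i).le)
      refine (hdiff _).2.trans ?_
      exact pow_le_pow_of_le_one (by norm_num) (by norm_num) (by have := hk1 i; omega)
    have hnn : ∀ i, 0 ≤ stepNorm p (v M) (fun j => x (j + n (k i)) - (z : ℕ → 𝕜) j) := by
      intro i
      have h9 := stepNorm_eq hp (hmem i)
      rw [h9]
      exact lp.norm_nonneg' _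
    refine squeeze_zero hnn hb ?_
    have h1 : Tendsto (fun i : ℕ => (1 / 2 : ℝ) ^ (i + 1)) atTop (𝓝 0) :=
      (tendsto_add_atTop_iff_nat 1).2
        (tendsto_pow_atTop_nhds_zero_of_lt_one (by norm_num) (by norm_num))
    have h2 : Tendsto (fun i : ℕ => (1 : ℝ) / (i + 1)) atTop (𝓝 0) :=
      tendsto_one_div_add_atTop_nhds_zero_nat
    simpa using h1.add h2

end Basic

/-- Let `1 ≤ p < ∞` or `p = ∞` (that is, `k_0(V)`), let `V` be a decreasing sequence of strictly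
positive weights for which the backward shift is continuous, and suppose that `k_p(V)` is nuclear or
that, more generally, for every `m` there is `n` with `v^(n)_j / v^(m)_j → 0`. If the backward shift
is topologically ergodic on `k_p(V)`, then it is sequentially hypercyclic. -/
theorem result (𝕜 : Type*) [RCLike 𝕜] (p : ℝ≥0∞) (hp : 1 ≤ p) (v : ℕ → ℕ → ℝ) (hv : IsWeights v)
    (hc : ShiftCond v) (hN : Nuclear v ∨ Schwartz v)
    (he : TopErgodic (indTop 𝕜 p v) (B hp hv hc)) :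
    SeqHypercyclic (indTop 𝕜 p v) (B hp hv hc) := by
  have hS : Schwartz v := hN.elim nuclear_schwartz id
  obtain ⟨m, hm⟩ := syndetic_of_ergodic hp hv hc hS he
  obtain ⟨q, hq⟩ := hm 1 one_pos
  obtain ⟨n, hn⟩ := weights_tendsto hv hc hS hq
  exact hypercyclic_of_tendsto hp hv hc hn

end Pool.Agent.Results.MP_b30f08_an.ErgodicImpliesHypercyclic
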